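import Mathlib

namespace Pool.Agent.Results.MP_130315_lc.NoLS

/-- A signature: predicate and function symbols with arities; function symbols may be rigid. -/
structure Sig where
  P : Type
  F : Type
  pa : P → ℕ
  fa : F → ℕ
  rigid : F → Prop

inductive Tm (S : Sig) : Type
  | var : ℕ → Tm S
  | app : (f : S.F) → (Fin (S.fa f) → Tm S) → Tm S

inductive Fm (S : Sig) : Type
  | pred : (p : S.P) → (Fin (S.pa p) → Tm S) → Fm S
  | eq : Tm S → Tm S → Fm S
  | bot : Fm S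
  | and : Fm S → Fm S → Fm S
  | ior : Fm S → Fm S → Fm S
  | imp : Fm S → Fm S → Fm S
  | all : ℕ → Fm S → Fm S
  | iex : ℕ → Fm S → Fm S

structure Model (S : Sig) where
  W : Type
  D : Type
  neW : Nonempty W
  neD : Nonempty D
  pI : W → (p : S.P) → (Fin (S.pa p) → D) → Prop
  fI : W → (f : S.F) → (Fin (S.fa f) → D) → D
  rig : ∀ f, S.rigid f → ∀ w w', fI w f = fI w' f
  sim : W → D → D → Prop
  eqv : ∀ w, Equivalence (sim w)
  congP : ∀ w p x y, (∀ i, sim w (x i) (y i)) → (pI w p x ↔ pI w p y)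
  congF : ∀ w f x y, (∀ i, sim w (x i) (y i)) → sim w (fI w f x) (fI w f y)

def Tm.val {S : Sig} (M : Model S) (w : M.W) (g : ℕ → M.D) : Tm S → M.D
  | .var n => g n
  | .app f t => M.fI w f fun i => (t i).val M w g

/-- The support relation of InqBQ. -/
def Supp {S : Sig} (M : Model S) : Fm S → Set M.W → (ℕ → M.D) → Prop
  | .pred p t, s, g => ∀ w ∈ s, M.pI w p fun i => (t i).val M w g
  | .eq t u, s, g => ∀ w ∈ s, M.sim w (t.val M w g) (u.val M w g)
  | .bot, s, _ => s = ∅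
  | .and φ ψ, s, g => Supp M φ s g ∧ Supp M ψ s g
  | .ior φ ψ, s, g => Supp M φ s g ∨ Supp M ψ s g
  | .imp φ ψ, s, g => ∀ t, t ⊆ s → Supp M φ t g → Supp M ψ t g
  | .all x φ, s, g => ∀ d, Supp M φ s (Function.update g x d)
  | .iex x φ, s, g => ∃ d, Supp M φ s (Function.update g x d)

/-- Symbols: `0, 1` non-rigid constants `a, b`; `2` rigid constant; `3, 4` rigid unary `S, h`. -/
def sg : Sig := ⟨Empty, Fin 5, Empty.elim, ![0, 0, 0, 1, 1], fun f => 2 ≤ f⟩

def ca : Tm sg := .app (0 : Fin 5) Fin.elim0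
def cb : Tm sg := .app (1 : Fin 5) Fin.elim0
def cz : Tm sg := .app (2 : Fin 5) Fin.elim0
def fS (t : Tm sg) : Tm sg := .app (3 : Fin 5) fun _ => t
def fh (t : Tm sg) : Tm sg := .app (4 : Fin 5) fun _ => t
def ng (φ : Fm sg) : Fm sg := .imp φ .bot

def chi : Fm sg :=
  .imp (.and (.all 0 (.all 1 (.ior (.eq (.var 0) (.var 1)) (ng (.eq (.var 0) (.var 1))))))
    (.and (.all 0 (.all 1 (.imp (.eq (fh (fS (.var 0))) (fh (fS (.var 1))))
      (.eq (fh (.var 0)) (fh (.var 1))))))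
    (.and (.all 0 (ng (.eq (fh (fS (.var 0))) (fh cz))))
    (.imp (.all 0 (.imp (.eq (fh ca) (.var 0)) (.iex 1 (.eq cb (.var 1)))))
      (.iex 1 (ng (.eq cb (.var 1))))))))
    (.iex 0 (.iex 1 (ng (.and (.eq ca (.var 0)) (.eq cb (.var 1))))))

variable (M : Model sg)
def va (w : M.W) : M.D := M.fI w (0 : Fin 5) Fin.elim0
def vb (w : M.W) : M.D := M.fI w (1 : Fin 5) Fin.elim0
def vz (w : M.W) : M.D := M.fI w (2 : Fin 5) Fin.elim0
def vS (w : M.W) (d : M.D) : M.D := M.fI w (3 : Fin 5) fun _ => d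
def vh (w : M.W) (d : M.D) : M.D := M.fI w (4 : Fin 5) fun _ => d

theorem ng_iff (s : Set M.W) (p : M.W → Prop) :
    (∀ t, t ⊆ s → (∀ w ∈ t, p w) → t = ∅) ↔ ∀ w ∈ s, ¬ p w :=
  ⟨fun h w hw hp => by simpa using h {w} (by simpa using hw) (by simpa using hp),
    fun h t ht hp => Set.eq_empty_of_forall_notMem fun w hw => h w (ht hw) (hp w hw)⟩

theorem supp_chi (s : Set M.W) (g : ℕ → M.D) : Supp M chi s g ↔ ∀ t, t ⊆ s →
    (∀ x y, (∀ w ∈ t, M.sim w x y) ∨ ∀ w ∈ t, ¬ M.sim w x y) ∧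
    (∀ x y, ∀ r, r ⊆ t → (∀ w ∈ r, M.sim w (vh M w (vS M w x)) (vh M w (vS M w y))) →
      ∀ w ∈ r, M.sim w (vh M w x) (vh M w y)) ∧
    (∀ x, ∀ w ∈ t, ¬ M.sim w (vh M w (vS M w x)) (vh M w (vz M w))) ∧
    (∀ r, r ⊆ t → (∀ x, ∀ q, q ⊆ r → (∀ w ∈ q, M.sim w (vh M w (va M w)) x) →
      ∃ y, ∀ w ∈ q, M.sim w (vb M w) y) → ∃ y, ∀ w ∈ r, ¬ M.sim w (vb M w) y) →
    ∃ x y, ∀ w ∈ t, ¬ (M.sim w (va M w) x ∧ M.sim w (vb M w) y) := by
  have e : ∀ (w : M.W) (g : ℕ → M.D), (fun i : Fin 0 => Tm.val M w g (Fin.elim0 i : Tm sg)) =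
      Fin.elim0 := fun w g => funext fun i => i.elim0
  have a : ∀ w g, ca.val M w g = va M w := fun w g => congrArg (M.fI w (0 : Fin 5)) (e w g)
  have b : ∀ w g, cb.val M w g = vb M w := fun w g => congrArg (M.fI w (1 : Fin 5)) (e w g)
  have z : ∀ w g, cz.val M w g = vz M w := fun w g => congrArg (M.fI w (2 : Fin 5)) (e w g)
  have S : ∀ w g t, (fS t).val M w g = vS M w (t.val M w g) := fun _ _ _ => rfl
  have h : ∀ w g t, (fh t).val M w g = vh M w (t.val M w g) := fun _ _ _ => rfl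
  have v : ∀ w g n, (Tm.var n : Tm sg).val M w g = g n := fun _ _ _ => rfl
  simp only [chi, ng, Supp, a, b, z, S, h, v, Function.update_self, ne_eq, zero_ne_one,
    not_false_eq_true, Function.update_of_ne, ← forall₂_and, ng_iff]

theorem ctble [Countable M.D] (s : Set M.W) (g : ℕ → M.D) : Supp M chi s g := by
  rw [supp_chi]
  rintro t - ⟨h1, h2, h3, h4⟩
  by_contra hn
  push Not at hn
  have := M.neD
  obtain ⟨e, he⟩ := exists_surjective_nat M.D
  obtain ⟨w0, hw0, -⟩ := hn (e 0) (e 0)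
  have E := M.eqv w0
  have tr : ∀ w ∈ t, ∀ x y, M.sim w x y ↔ M.sim w0 x y := fun w hw x y => by
    rcases h1 x y with h | h
    · exact iff_of_true (h w hw) (h w0 hw0)
    · exact iff_of_false (h w hw) (h w0 hw0)
  have rh : ∀ w, vh M w = vh M w0 := fun w => funext fun d =>
    congrFun (M.rig (4 : Fin 5) (by decide : (2 : Fin 5) ≤ 4) w w0) _
  let c : ℕ → M.D := fun n => (vS M w0)^[n] (vz M w0)
  have inj : ∀ m n, M.sim w0 (vh M w0 (c m)) (vh M w0 (c n)) → m = n := by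
    intro m
    induction m with
    | zero =>
      rintro (_ | n) h
      · rfl
      · simp only [c, Function.iterate_succ_apply'] at h
        exact (h3 _ w0 hw0 (E.symm h)).elim
    | succ m ih =>
      rintro (_ | n) h <;> simp only [c, Function.iterate_succ_apply'] at h
      · exact (h3 _ w0 hw0 h).elim
      · rw [ih n (h2 _ _ {w0} (by simpa using hw0) (by simpa using h) w0 rfl)]
  obtain ⟨y, hy⟩ := h4 {w ∈ t | ∃ n, M.sim w (va M w) (c n) ∧ M.sim w (vb M w) (e n)}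
    (Set.sep_subset _ _) (by
    intro x q hq hx
    rcases q.eq_empty_or_nonempty with rfl | ⟨w1, hw1⟩
    · exact ⟨x, by simp⟩
    have key : ∀ w ∈ q, ∃ n, M.sim w0 (vh M w0 (c n)) x ∧ M.sim w (vb M w) (e n) := by
      intro w hw
      obtain ⟨hw', n, h5, h6⟩ := hq hw
      have h7 : M.sim w (vh M w (va M w)) (vh M w (c n)) :=
        M.congF w (4 : Fin 5) _ _ fun _ => h5
      have h8 := (M.eqv w).trans ((M.eqv w).symm h7) (hx w hw)
      rw [rh w, tr w hw'] at h8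
      exact ⟨n, h8, h6⟩
    obtain ⟨n, h5, -⟩ := key w1 hw1
    refine ⟨e n, fun w hw => ?_⟩
    obtain ⟨m, h6, h7⟩ := key w hw
    rwa [inj n m (E.trans h5 (E.symm h6))])
  obtain ⟨n, rfl⟩ := he y
  obtain ⟨w, hw, h5, h6⟩ := hn (c n) (e n)
  exact hy w ⟨hw, n, h5, h6⟩ h6

def big : Model sg where
  W := (ℝ × ℕ) × (ℝ × ℕ)
  D := ℝ × ℕ
  neW := inferInstance
  neD := inferInstance
  pI _ p := p.elim
  fI w f := match f with
    | (0 : Fin 5) => fun _ => w.1
    | (1 : Fin 5) => fun _ => w.2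
    | (2 : Fin 5) => fun _ => (0, 0)
    | (3 : Fin 5) => fun x => (0, (x (0 : Fin 1)).2 + 1)
    | (4 : Fin 5) => fun x => (0, (x (0 : Fin 1)).2)
  rig f hf w w' := by
    match f, hf with
    | (2 : Fin 5), _ => rfl
    | (3 : Fin 5), _ => rfl
    | (4 : Fin 5), _ => rfl
  sim _ := Eq
  eqv _ := eq_equivalence
  congP _ p := p.elim
  congF w f x y h := by rw [funext h]

theorem refute (g : ℕ → big.D) : ¬ Supp big chi Set.univ g := by
  rw [supp_chi]
  intro h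
  obtain ⟨x, y, hxy⟩ := h _ le_rfl ⟨fun x y => (em (x = y)).imp (fun h _ _ => h) fun h _ _ => h,
    fun x y r _ h w hw => Prod.ext rfl (Nat.succ_injective (congrArg Prod.snd (h w hw))),
    fun x w _ h => Nat.succ_ne_zero _ (congrArg Prod.snd h), fun r _ h => by
      choose f hf using fun n : ℕ => h (0, n) {w ∈ r | w.1.2 = n} (Set.sep_subset _ _)
        fun w hw => Prod.ext rfl hw.2
      obtain ⟨y, hy⟩ : ∃ y, y ∉ Set.range f := by
        by_contra hn
        push Not at hn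
        exact not_countable (α := ℝ × ℕ) (Function.Surjective.countable hn)
      exact ⟨y, fun w hw h => hy ⟨w.1.2, (hf _ w ⟨hw, rfl⟩).symm.trans h⟩⟩⟩
  exact hxy (x, y) trivial ⟨rfl, rfl⟩

theorem result : ∃ (S : Sig) (φ : Fm S), Finite S.P ∧ Finite S.F ∧
    (¬ ∀ (M : Model S) (s : Set M.W) (g : ℕ → M.D), Supp M φ s g) ∧
    ∀ M : Model S, Countable M.W → Countable M.D →
      ∀ (s : Set M.W) (g : ℕ → M.D), Supp M φ s g :=
  ⟨sg, chi, inferInstanceAs (Finite Empty), inferInstanceAs (Finite (Fin 5)),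
    fun h => refute (fun _ => ((0, 0) : ℝ × ℕ)) (h _ _ _), fun M _ _ => ctble M⟩

end Pool.Agent.Results.MP_130315_lc.NoLS
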